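import Mathlib

set_option autoImplicit false

open Finset

namespace Run7.h635.NA

/-- action of a word on a point, the last letter acts first -/
def act {Y : Type} (a : Fin 3 → Y → Y) : List (Fin 3) → Y → Y
  | [], x => x
  | i :: u, x => a i (act a u x)

/-- reduced words: consecutive letters differ -/
def Red : List (Fin 3) → Prop
  | [] => True
  | i :: u => Red u ∧ u.head? ≠ some i

/-- no reduced word of length between `1` and `g` has a fixed point -/
def Free {Y : Type} (a : Fin 3 → Y → Y) (g : ℕ) : Prop :=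
  ∀ u : List (Fin 3), u ≠ [] → u.length ≤ g → Red u → ∀ x, act a u x ≠ x

section
variable {Y : Type} [DecidableEq Y]

theorem exists_leaf (a : Fin 3 → Y → Y) (g : ℕ) (hF : Free a g) (E : Finset Y)
    (hE : E.Nonempty) (hg : E.card ≤ g) :
    ∃ x ∈ E, (univ.filter (fun i => a i x ∈ E)).card ≤ 1 := by
  by_contra hcon
  push Not at hcon
  -- one can always continue
  have hstep : ∀ p : {p : Y × Fin 3 // p.1 ∈ E}, ∃ q : {p : Y × Fin 3 // p.1 ∈ E},
      q.1.1 = a q.1.2 p.1.1 ∧ q.1.2 ≠ p.1.2 := by
    rintro ⟨⟨x, i⟩, hx⟩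
    have h1 := hcon x hx
    obtain ⟨j, hj, hji⟩ := Finset.exists_mem_ne h1 i
    rw [mem_filter] at hj
    exact ⟨⟨(a j x, j), hj.2⟩, rfl, hji⟩
  choose nx hnx1 hnx2 using hstep
  obtain ⟨x0, hx0⟩ := hE
  let st : ℕ → {p : Y × Fin 3 // p.1 ∈ E} := fun n => Nat.rec ⟨(x0, 0), hx0⟩ (fun _ p => nx p) n
  have st1 : ∀ n, (st (n + 1)).1.1 = a (st (n + 1)).1.2 (st n).1.1 := fun n => hnx1 (st n)
  have st2 : ∀ n, (st (n + 1)).1.2 ≠ (st n).1.2 := fun n => hnx2 (st n)
  -- words
  let wd : ℕ → ℕ → List (Fin 3) := fun s d => Nat.rec [] (fun d u => (st (s + d + 1)).1.2 :: u) d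
  have wd1 : ∀ s d, wd s (d + 1) = (st (s + d + 1)).1.2 :: wd s d := fun s d => rfl
  have wlen : ∀ s d, (wd s d).length = d := by
    intro s d
    induction d with
    | zero => rfl
    | succ d ih => rw [wd1, List.length_cons, ih]
  have wred : ∀ s d, Red (wd s d) := by
    intro s d
    induction d with
    | zero => trivial
    | succ d ih =>
      rw [wd1]
      refine ⟨ih, ?_⟩
      cases d with
      | zero => simp [wd]
      | succ d =>
        rw [wd1]
        simp only [List.head?_cons, ne_eq, Option.some.injEq]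
        intro h
        exact st2 (s + d + 1) h.symm
  have wact : ∀ s d, act a (wd s d) (st s).1.1 = (st (s + d)).1.1 := by
    intro s d
    induction d with
    | zero => rfl
    | succ d ih =>
      rw [wd1]
      show a _ (act a (wd s d) (st s).1.1) = _
      rw [ih, ← add_assoc, st1]
  -- pigeonhole
  have hp : ∃ s ∈ range (E.card + 1), ∃ t ∈ range (E.card + 1), s ≠ t ∧ (st s).1.1 = (st t).1.1 := by
    apply Finset.exists_ne_map_eq_of_card_lt_of_maps_to (t := E)
    · simp
    · intro n _; exact (st n).2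
  obtain ⟨s, hs, t, ht, hst, heq⟩ := hp
  rw [mem_range] at hs ht
  rcases lt_or_gt_of_ne hst with h | h
  · obtain ⟨d, rfl⟩ := Nat.exists_eq_add_of_lt h
    refine hF (wd s (d + 1)) (by rw [wd1]; simp)
      ((wlen s (d + 1)).le.trans (by omega)) (wred s (d + 1)) (st s).1.1 ?_
    exact (wact s (d + 1)).trans heq.symm
  · obtain ⟨d, rfl⟩ := Nat.exists_eq_add_of_lt h
    refine hF (wd t (d + 1)) (by rw [wd1]; simp)
      ((wlen t (d + 1)).le.trans (by omega)) (wred t (d + 1)) (st t).1.1 ?_
    exact (wact t (d + 1)).trans heq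

/-- pairs leaving `E` -/
def bd (a : Fin 3 → Y → Y) (E : Finset Y) : Finset (Y × Fin 3) :=
  (E ×ˢ univ).filter (fun p => a p.2 p.1 ∉ E)

theorem iso_ineq (a : Fin 3 → Y → Y) (ha : ∀ i x, a i (a i x) = x) (g : ℕ) (hF : Free a g) :
    ∀ (m : ℕ) (E : Finset Y), E.card = m → m ≤ g → m ≤ (bd a E).card := by
  intro m
  induction m with
  | zero => intro E _ _; exact Nat.zero_le _
  | succ m ih =>
    intro E hE hm
    obtain ⟨x, hx, hleaf⟩ := exists_leaf a g hF E (by
      rw [← Finset.card_pos]; omega) (by omega)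
    have hE' : (E.erase x).card = m := by rw [card_erase_of_mem hx]; omega
    have h1 := ih (E.erase x) hE' (by omega)
    -- split
    set P : Finset (Y × Fin 3) := ((E.erase x) ×ˢ univ).filter (fun p => a p.2 p.1 ∉ E) with hP
    set Q : Finset (Y × Fin 3) := ((E.erase x) ×ˢ univ).filter (fun p => a p.2 p.1 = x) with hQ
    set J : Finset (Fin 3) := univ.filter (fun i => a i x ∈ E) with hJ
    have h2 : bd a (E.erase x) ⊆ P ∪ Q := by
      intro p hp
      simp only [bd, hP, hQ, mem_union, mem_filter, mem_product, mem_univ, and_true, mem_erase] at *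
      tauto
    have h3 : Q.card ≤ J.card := by
      apply Finset.card_le_card_of_injOn (fun p => p.2)
      · intro p hp
        have hp' : p ∈ Q := hp
        rw [hQ, mem_filter, mem_product] at hp'
        show p.2 ∈ J
        rw [hJ, mem_filter]
        refine ⟨mem_univ _, ?_⟩
        rw [← hp'.2, ha]
        exact mem_of_mem_erase hp'.1.1
      · intro p hp q hq hpq
        have hp' : p ∈ Q := hp
        have hq' : q ∈ Q := hq
        rw [hQ, mem_filter] at hp' hq'
        have hpq' : p.2 = q.2 := hpq
        refine Prod.ext ?_ hpq'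
        rw [← ha p.2 p.1, hp'.2, hpq', ← hq'.2, ha]
    have h4 : P.card + (univ \ J).card ≤ (bd a E).card := by
      have hdis : Disjoint P ((univ \ J).image (fun i => (x, i))) := by
        rw [Finset.disjoint_left]
        intro p hp hp'
        rw [hP, mem_filter, mem_product] at hp
        obtain ⟨i, -, rfl⟩ := mem_image.1 hp'
        exact (mem_erase.1 hp.1.1).1 rfl
      have hinj : ((univ \ J).image (fun i => (x, i))).card = (univ \ J).card := by
        apply card_image_of_injective
        intro i j hij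
        exact (Prod.mk.inj hij).2
      rw [← hinj, ← card_union_of_disjoint hdis]
      apply card_le_card
      intro p hp
      rw [mem_union] at hp
      rw [bd, mem_filter, mem_product]
      rcases hp with hp | hp
      · rw [hP, mem_filter, mem_product] at hp
        exact ⟨⟨mem_of_mem_erase hp.1.1, mem_univ _⟩, hp.2⟩
      · obtain ⟨i, hi, rfl⟩ := mem_image.1 hp
        rw [mem_sdiff, hJ, mem_filter] at hi
        exact ⟨⟨hx, mem_univ _⟩, fun h => hi.2 ⟨mem_univ _, h⟩⟩
    have h5 : (univ \ J).card = 3 - J.card := by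
      rw [card_sdiff_of_subset (subset_univ _)]; simp
    have h6 := (card_le_card h2).trans (card_union_le _ _)
    omega

end

end Run7.h635.NA
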