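import Mathlib
import Pool.Agent.Run7.h635.TreeIso

set_option autoImplicit false

open Finset

namespace Run7.h635.NA

/-- vertices of the ball of radius `g` in the 3-regular tree: reduced words -/
def V (g : ℕ) : Type := {w : List (Fin 3) // Red w ∧ w.length ≤ g}

instance (g : ℕ) : Finite (V g) := by
  have h : {l : List (Fin 3) | l.length ≤ g}.Finite := List.finite_length_le _ _
  have : Finite {l : List (Fin 3) | l.length ≤ g} := h
  refine Finite.of_injective (fun w : V g => (⟨w.1, w.2.2⟩ : {l : List (Fin 3) | l.length ≤ g})) ?_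
  intro a b hab
  have h1 : a.1 = b.1 := congrArg (fun z : {l : List (Fin 3) | l.length ≤ g} => z.1) hab
  exact Subtype.ext h1

noncomputable instance (g : ℕ) : DecidableEq (V g) := Classical.decEq _

/-- the letter `i` acts on words -/
def mv (g : ℕ) (i : Fin 3) : List (Fin 3) → List (Fin 3)
  | [] => if 0 < g then [i] else []
  | j :: u => if j = i then u else if u.length + 1 < g then i :: j :: u else j :: u

theorem mv_nil (g : ℕ) (i : Fin 3) : mv g i [] = if 0 < g then [i] else [] := rfl

theorem mv_cons (g : ℕ) (i j : Fin 3) (u : List (Fin 3)) : mv g i (j :: u) =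
    if j = i then u else if u.length + 1 < g then i :: j :: u else j :: u := rfl

theorem mv_ok (g : ℕ) (i : Fin 3) (w : List (Fin 3)) (hw : Red w ∧ w.length ≤ g) :
    Red (mv g i w) ∧ (mv g i w).length ≤ g := by
  cases w with
  | nil =>
    rw [mv_nil]
    by_cases h : 0 < g
    · rw [if_pos h]
      exact ⟨⟨trivial, by simp⟩, h⟩
    · rw [if_neg h]
      exact hw
  | cons j u =>
    rw [mv_cons]
    by_cases h1 : j = i
    · rw [if_pos h1]
      refine ⟨hw.1.1, ?_⟩
      have := hw.2
      simp at this
      omega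
    · rw [if_neg h1]
      by_cases h2 : u.length + 1 < g
      · rw [if_pos h2]
        refine ⟨⟨hw.1, ?_⟩, ?_⟩
        · simpa using h1
        · simp; omega
      · rw [if_neg h2]
        exact hw

theorem mv_mv (g : ℕ) (i : Fin 3) (w : List (Fin 3)) (hw : Red w ∧ w.length ≤ g) :
    mv g i (mv g i w) = w := by
  cases w with
  | nil =>
    by_cases h : 0 < g
    · simp [mv, h]
    · simp [mv, h]
  | cons j u =>
    by_cases h1 : j = i
    · subst h1
      have e : mv g j (j :: u) = u := by simp [mv]
      rw [e]
      cases u with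
      | nil =>
        have : 0 < g := by have := hw.2; simp at this; omega
        simp [mv, this]
      | cons k t =>
        have h2 : k ≠ j := by
          intro h
          apply hw.1.2
          simp [h]
        have h3 : t.length + 1 < g := by
          have := hw.2
          simp at this
          omega
        simp [mv, h2, h3]
    · by_cases h2 : u.length + 1 < g
      · simp [mv, h1, h2]
      · simp [mv, h1, h2]

/-- the involution of `V g` given by a letter -/
def inv (g : ℕ) (i : Fin 3) : Equiv.Perm (V g) where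
  toFun w := ⟨mv g i w.1, mv_ok g i w.1 w.2⟩
  invFun w := ⟨mv g i w.1, mv_ok g i w.1 w.2⟩
  left_inv w := Subtype.ext (mv_mv g i w.1 w.2)
  right_inv w := Subtype.ext (mv_mv g i w.1 w.2)

theorem inv_inv (g : ℕ) (i : Fin 3) : inv g i * inv g i = 1 := by
  refine Equiv.ext fun w => ?_
  exact Subtype.ext (mv_mv g i w.1 w.2)

/-- action on permutations by left multiplication -/
def aa (g : ℕ) (i : Fin 3) (σ : Equiv.Perm (V g)) : Equiv.Perm (V g) := inv g i * σ

theorem aa_aa (g : ℕ) (i : Fin 3) (σ : Equiv.Perm (V g)) : aa g i (aa g i σ) = σ := by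
  unfold aa
  rw [← mul_assoc, inv_inv, one_mul]

theorem act_aa (g : ℕ) (u : List (Fin 3)) (σ : Equiv.Perm (V g)) :
    act (aa g) u σ = (u.map (inv g)).prod * σ := by
  induction u with
  | nil => simp [act]
  | cons i u ih => simp [act, ih, aa, mul_assoc]

def rt (g : ℕ) : V g := ⟨[], trivial, Nat.zero_le _⟩

theorem prod_rt (g : ℕ) (u : List (Fin 3)) (hu : Red u) (hl : u.length ≤ g) :
    (((u.map (inv g)).prod) (rt g)).1 = u := by
  induction u with
  | nil => rfl
  | cons i u ih =>
    rw [List.map_cons, List.prod_cons, Equiv.Perm.mul_apply]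
    have hl' : u.length + 1 ≤ g := by simpa using hl
    have h1 := ih hu.1 (by omega)
    show mv g i (((u.map (inv g)).prod) (rt g)).1 = i :: u
    rw [h1]
    cases u with
    | nil =>
      have : 0 < g := by simp at hl'; omega
      simp [mv, this]
    | cons j t =>
      have h2 : j ≠ i := by
        intro h
        apply hu.2
        simp [h]
      have h3 : t.length + 1 < g := by
        simp at hl'
        omega
      simp [mv, h2, h3]

theorem free_aa (g : ℕ) : Free (aa g) g := by
  intro u hu hl hr σ h
  rw [act_aa] at h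
  have h1 : (u.map (inv g)).prod = 1 := by
    have := congrArg (fun τ => τ * σ⁻¹) h
    simpa using this
  have h2 := prod_rt g u hr hl
  rw [h1] at h2
  exact hu h2.symm

/-- the disjoint union of the graphs -/
def X : Type := Σ g : ℕ, Equiv.Perm (V g)

def mk (g : ℕ) (σ : Equiv.Perm (V g)) : X := ⟨g, σ⟩

instance : Countable X := by unfold X; infer_instance
instance : Infinite X :=
  Infinite.of_injective (fun g : ℕ => mk g 1) (fun _ _ h => congrArg Sigma.fst h)

noncomputable def en : X ≃ ℕ := Classical.choice nonempty_equiv_of_countable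

noncomputable instance : DecidableEq X := Classical.decEq _

/-- the five generating moves -/
noncomputable def nb (x : X) : Finset X :=
  (univ.image (fun i : Fin 3 => mk x.1 (aa x.1 i x.2))) ∪
    {en.symm (en x + 1), en.symm (en x - 1)}

theorem nb_card (x : X) : (nb x).card ≤ 5 := by
  unfold nb
  refine (card_union_le _ _).trans ?_
  have h1 : (univ.image (fun i : Fin 3 => mk x.1 (aa x.1 i x.2))).card ≤ 3 := by
    refine card_image_le.trans (by simp)
  have h2 : ({en.symm (en x + 1), en.symm (en x - 1)} : Finset X).card ≤ 2 := card_le_two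
  omega

theorem nb_symm {x y : X} (h : y ∈ nb x) (hxy : x ≠ y) : x ∈ nb y := by
  unfold nb at h
  rw [mem_union] at h
  rcases h with h | h
  · obtain ⟨i, -, rfl⟩ := mem_image.1 h
    unfold nb
    rw [mem_union]
    left
    refine mem_image.2 ⟨i, mem_univ _, ?_⟩
    show mk x.1 (aa x.1 i (aa x.1 i x.2)) = x
    rw [aa_aa]
    rfl
  · unfold nb
    rw [mem_union]
    right
    simp only [mem_insert, mem_singleton] at h ⊢
    rcases h with h | h
    · right
      rw [h]; simp
    · left
      by_cases h0 : en x = 0
      · exfalso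
        apply hxy
        rw [h, h0]
        have : x = en.symm 0 := by rw [← h0]; simp
        exact this
      · rw [h, Equiv.apply_symm_apply, Nat.sub_add_cancel (by omega)]
        simp

/-- the graph -/
noncomputable def Gr : SimpleGraph X where
  Adj x y := x ≠ y ∧ y ∈ nb x
  symm := ⟨fun _ _ h => ⟨h.1.symm, nb_symm h.2 h.1⟩⟩
  loopless := ⟨fun _ h => h.1 rfl⟩

theorem reach0 (n : ℕ) : Gr.Reachable (en.symm 0) (en.symm n) := by
  induction n with
  | zero => exact SimpleGraph.Reachable.refl _
  | succ n ih =>
    refine ih.trans (SimpleGraph.Adj.reachable ⟨?_, ?_⟩)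
    · intro h
      have := en.symm.injective h
      omega
    · unfold nb
      simp

theorem conn : Gr.Connected := by
  have : Nonempty X := ⟨en.symm 0⟩
  refine ⟨fun x y => ?_⟩
  have h1 := reach0 (en x)
  have h2 := reach0 (en y)
  rw [Equiv.symm_apply_apply] at h1 h2
  exact h1.symm.trans h2

noncomputable instance instMX : MetricSpace X where
  dist x y := (Gr.dist x y : ℝ)
  dist_self x := by simp
  dist_comm x y := by rw [SimpleGraph.dist_comm]
  dist_triangle x y z := by exact_mod_cast conn.dist_triangle
  eq_of_dist_eq_zero := by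
    intro x y h
    have h' : Gr.dist x y = 0 := by exact_mod_cast h
    exact (conn.dist_eq_zero_iff).1 h'

theorem dist_def (x y : X) : dist x y = (Gr.dist x y : ℝ) := rfl

/-- iterated neighbourhoods -/
noncomputable def Fn : ℕ → X → Finset X
  | 0, x => {x}
  | n + 1, x => (insert x (nb x)).biUnion (Fn n)

theorem Fn_card (n : ℕ) (x : X) : (Fn n x).card ≤ 6 ^ n := by
  induction n generalizing x with
  | zero => simp [Fn]
  | succ n ih =>
    unfold Fn
    refine (card_biUnion_le_card_mul _ _ (6 ^ n) (fun y _ => ih y)).trans ?_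
    rw [pow_succ, mul_comm]
    apply Nat.mul_le_mul_left
    refine (card_insert_le _ _).trans ?_
    have := nb_card x
    omega

theorem walk_mem {x y : X} (p : Gr.Walk x y) : y ∈ Fn p.length x := by
  induction p with
  | nil => simp [Fn]
  | cons h p ih =>
    rw [SimpleGraph.Walk.length_cons]
    unfold Fn
    rw [mem_biUnion]
    exact ⟨_, mem_insert_of_mem h.2, ih⟩

theorem Fn_mono (n : ℕ) (x : X) : Fn n x ⊆ Fn (n + 1) x := by
  intro y hy
  show y ∈ (insert x (nb x)).biUnion (Fn n)
  rw [mem_biUnion]
  exact ⟨x, mem_insert_self _ _, hy⟩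

theorem Fn_mono' {n m : ℕ} (h : n ≤ m) (x : X) : Fn n x ⊆ Fn m x := by
  induction h with
  | refl => exact Subset.refl _
  | step _ ih => exact ih.trans (Fn_mono _ _)

theorem ball_sub (x : X) (R : ℝ) : Metric.ball x R ⊆ (Fn ⌈R⌉₊ x : Set X) := by
  intro y hy
  rw [Metric.mem_ball, dist_comm, dist_def] at hy
  obtain ⟨p, hp⟩ := conn.exists_walk_length_eq_dist x y
  have h1 := walk_mem p
  rw [hp] at h1
  have h2 : Gr.dist x y ≤ ⌈R⌉₊ := by
    have := Nat.le_ceil R
    exact_mod_cast (hy.le.trans this)
  exact Fn_mono' h2 x h1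

theorem bdd_geom : ∀ R : ℝ, 0 < R → ∃ N : ℕ, ∀ x : X,
    (Metric.ball x R).Finite ∧ (Metric.ball x R).ncard ≤ N := by
  intro R _
  refine ⟨6 ^ ⌈R⌉₊, fun x => ⟨(Finset.finite_toSet _).subset (ball_sub x R), ?_⟩⟩
  refine (Set.ncard_le_ncard (ball_sub x R) (Finset.finite_toSet _)).trans ?_
  rw [Set.ncard_coe_finset]
  exact Fn_card _ _

theorem dist_aa (g : ℕ) (i : Fin 3) (σ : Equiv.Perm (V g)) :
    dist (mk g σ) (mk g (aa g i σ)) < 2 := by
  rw [dist_def]
  have h : Gr.dist (mk g σ) (mk g (aa g i σ)) ≤ 1 := by
    by_cases he : mk g σ = mk g (aa g i σ)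
    · rw [← he]; simp
    · have : Gr.Adj (mk g σ) (mk g (aa g i σ)) := by
        refine ⟨he, ?_⟩
        unfold nb
        rw [mem_union]
        left
        exact mem_image.2 ⟨i, mem_univ _, rfl⟩
      rw [SimpleGraph.dist_eq_one_iff_adj.2 this]
  have : (Gr.dist (mk g σ) (mk g (aa g i σ)) : ℝ) ≤ 1 := by exact_mod_cast h
  linarith

end Run7.h635.NA
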