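import Mathlib

set_option autoImplicit false

open Finset

namespace Run7.h635.Cyc

/-- `σ` maps the family `A` onto the family `B` -/
def Iso {V : Type} (σ : Equiv.Perm V) (A B : Finset (Finset V)) : Prop :=
  ∀ b : Finset V, b ∈ A ↔ b.map σ.toEmbedding ∈ B

theorem map_mul {V : Type} (σ τ : Equiv.Perm V) (b : Finset V) :
    b.map (τ * σ).toEmbedding = (b.map σ.toEmbedding).map τ.toEmbedding := by
  rw [Finset.map_map]; rfl

theorem Iso.mul {V : Type} {σ τ : Equiv.Perm V} {A B C : Finset (Finset V)}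
    (h1 : Iso σ A B) (h2 : Iso τ B C) : Iso (τ * σ) A C := by
  intro b
  rw [map_mul, h1 b, h2]

theorem map_one' {V : Type} (b : Finset V) : b.map (1 : Equiv.Perm V).toEmbedding = b := by
  have h : (1 : Equiv.Perm V) = Equiv.refl V := rfl
  rw [h]
  ext x
  simp

theorem map_inv_map {V : Type} (σ : Equiv.Perm V) (b : Finset V) :
    (b.map (σ⁻¹).toEmbedding).map σ.toEmbedding = b := by
  rw [← map_mul, mul_inv_cancel, map_one']

theorem Iso.inv {V : Type} {σ : Equiv.Perm V} {A B : Finset (Finset V)}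
    (h1 : Iso σ A B) : Iso σ⁻¹ B A := by
  intro b
  rw [h1, map_inv_map]

theorem Iso.refl {V : Type} (A : Finset (Finset V)) : Iso (1 : Equiv.Perm V) A A := by
  intro b
  rw [map_one']

theorem Iso.eq {V : Type} {σ : Equiv.Perm V} {A B B' : Finset (Finset V)}
    (h1 : Iso σ A B) (h2 : Iso σ A B') : B = B' := by
  ext b
  rw [h1.inv b, h2.inv b]

/-- a permutation commuting with the cyclic shift and fixing a point is trivial -/
theorem comm_fix {n : ℕ} [NeZero n] (γ : Equiv.Perm (ZMod n))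
    (hc : ∀ x, γ (x + 1) = γ x + 1) (x0 : ZMod n) (h0 : γ x0 = x0) : γ = 1 := by
  have h1 : ∀ m : ℕ, γ (x0 + m) = x0 + m := by
    intro m
    induction m with
    | zero => simpa using h0
    | succ m ih =>
      rw [Nat.cast_succ, ← add_assoc, hc, ih]
  ext z
  have h2 := h1 (z - x0).val
  rw [ZMod.natCast_zmod_val] at h2
  simp only [add_sub_cancel] at h2
  rw [h2]; rfl

open scoped Classical in
theorem iso_count {n : ℕ} [NeZero n] {C : Type} [Fintype C]
    (F : C → Finset (Finset (ZMod n))) (hF : Function.Injective F)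
    (hinv : ∀ c, ∀ s : ZMod n, ∀ b ∈ F c, b.image (fun x => x + s) ∈ F c) (c0 : C) :
    Fintype.card {c : C // ∃ σ : Equiv.Perm (ZMod n), Iso σ (F c0) (F c)} ≤ n := by
  classical
  set ρ : Equiv.Perm (ZMod n) := Equiv.addRight (1 : ZMod n) with hρ
  have hρi : ∀ c, Iso ρ (F c) (F c) := by
    intro c b
    constructor
    · intro hb
      have := hinv c 1 b hb
      rw [Finset.map_eq_image]
      exact this
    · intro hb
      have := hinv c (-1) _ hb
      rw [Finset.map_eq_image, Finset.image_image] at this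
      convert this using 1
      ext x
      simp [hρ]
  choose σ hσ using fun c : {c : C // ∃ σ : Equiv.Perm (ZMod n), Iso σ (F c0) (F c)} => c.2
  let Aut := {α : Equiv.Perm (ZMod n) // Iso α (F c0) (F c0)}
  let g : {c : C // ∃ σ : Equiv.Perm (ZMod n), Iso σ (F c0) (F c)} × Aut → Aut × ZMod n :=
    fun p => (⟨(σ p.1 * p.2.1)⁻¹ * (ρ * (σ p.1 * p.2.1)),
      ((p.2.2.mul (hσ p.1)).mul (hρi _)).mul (p.2.2.mul (hσ p.1)).inv⟩, (σ p.1 * p.2.1) 0)
  have hg : Function.Injective g := by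
    rintro ⟨c, α⟩ ⟨c', α'⟩ h
    have h1 : (σ c * α.1)⁻¹ * (ρ * (σ c * α.1)) = (σ c' * α'.1)⁻¹ * (ρ * (σ c' * α'.1)) :=
      congrArg Subtype.val (congrArg Prod.fst h)
    have h2 : (σ c * α.1) 0 = (σ c' * α'.1) 0 := congrArg Prod.snd h
    set τ := σ c * α.1 with hτ
    set τ' := σ c' * α'.1 with hτ'
    have h3 : τ' * τ⁻¹ = 1 := by
      refine comm_fix (τ' * τ⁻¹) ?_ (τ 0) ?_
      · intro x
        have h4 : τ' * τ⁻¹ * ρ = ρ * (τ' * τ⁻¹) := by
          have : τ' * (τ⁻¹ * (ρ * τ)) * τ⁻¹ = τ' * (τ'⁻¹ * (ρ * τ')) * τ⁻¹ := by rw [h1]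
          have e1 : τ' * (τ⁻¹ * (ρ * τ)) * τ⁻¹ = τ' * τ⁻¹ * ρ := by group
          have e2 : τ' * (τ'⁻¹ * (ρ * τ')) * τ⁻¹ = ρ * (τ' * τ⁻¹) := by group
          rw [e1, e2] at this
          exact this
        have h5 := congrArg (fun f : Equiv.Perm (ZMod n) => f x) h4
        simpa [hρ, Equiv.Perm.mul_apply] using h5
      · have h8 : (τ' * τ⁻¹) (τ 0) = (τ' * τ⁻¹ * τ) 0 := rfl
        rw [h8, inv_mul_cancel_right, ← h2]
    have h6 : τ' = τ := by
      have := mul_inv_eq_one.1 h3
      exact this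
    have hc1 : Iso τ (F c0) (F c) := α.2.mul (hσ c)
    have hc2 : Iso τ (F c0) (F c') := by
      rw [← h6]; exact α'.2.mul (hσ c')
    have hcc : c = c' := Subtype.ext (hF (hc1.eq hc2))
    subst hcc
    have : α.1 = α'.1 := by
      have h7 : σ c * α'.1 = σ c * α.1 := h6
      exact (mul_left_cancel h7).symm
    rw [Subtype.ext this]
  have hcard := Fintype.card_le_of_injective g hg
  rw [Fintype.card_prod, Fintype.card_prod, ZMod.card] at hcard
  have hpos : 0 < Fintype.card Aut := Fintype.card_pos_iff.2 ⟨⟨1, Iso.refl _⟩⟩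
  rw [mul_comm (Fintype.card Aut) n] at hcard
  exact Nat.le_of_mul_le_mul_right hcard hpos

open scoped Classical in
/-- many pairwise non-isomorphic members -/
theorem many_classes {n : ℕ} [NeZero n] {C : Type} [Fintype C]
    (F : C → Finset (Finset (ZMod n))) (hF : Function.Injective F)
    (hinv : ∀ c, ∀ s : ZMod n, ∀ b ∈ F c, b.image (fun x => x + s) ∈ F c) (M : ℕ)
    (hM : M * n ≤ Fintype.card C) :
    ∃ f : Fin M → C, ∀ i j, i ≠ j → ¬ ∃ σ : Equiv.Perm (ZMod n), Iso σ (F (f i)) (F (f j)) := by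
  classical
  let S : Setoid C := {
    r := fun c c' => ∃ σ : Equiv.Perm (ZMod n), Iso σ (F c) (F c')
    iseqv := ⟨fun c => ⟨1, Iso.refl _⟩, fun ⟨σ, h⟩ => ⟨σ⁻¹, h.inv⟩,
      fun ⟨σ, h⟩ ⟨τ, h'⟩ => ⟨τ * σ, h.mul h'⟩⟩ }
  have h1 : (univ : Finset C).card ≤ n * (univ.image (fun c => (Quotient.mk S c))).card := by
    refine Finset.card_le_mul_card_image (f := fun c => Quotient.mk S c) univ n ?_
    intro a ha
    obtain ⟨c0, -, rfl⟩ := Finset.mem_image.1 ha
    refine le_trans (le_of_eq ?_) (iso_count F hF hinv c0)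
    rw [Fintype.card_subtype]
    congr 1
    ext c
    simp only [mem_filter, mem_univ, true_and]
    constructor
    · intro h
      exact Quotient.exact h.symm
    · intro h
      exact (Quotient.sound (s := S) h).symm
  have h2 : (univ.image (fun c => (Quotient.mk S c))).card ≤ Fintype.card (Quotient S) :=
    Finset.card_le_univ _
  rw [Finset.card_univ] at h1
  have h3 : M ≤ Fintype.card (Quotient S) := by
    have h4 : M * n ≤ Fintype.card (Quotient S) * n :=
      le_trans hM (le_trans h1 (by rw [mul_comm]; exact Nat.mul_le_mul_right _ h2))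
    exact Nat.le_of_mul_le_mul_right h4 (Nat.pos_of_ne_zero (NeZero.ne n))
  have h5 : Fintype.card (Fin M) ≤ Fintype.card (Quotient S) := by simpa using h3
  obtain ⟨g⟩ := Function.Embedding.nonempty_of_card_le h5
  refine ⟨fun i => Quotient.out (g i), fun i j hij ⟨σ, hσ⟩ => hij ?_⟩
  apply g.injective
  have : Quotient.mk S (Quotient.out (g i)) = Quotient.mk S (Quotient.out (g j)) :=
    Quotient.sound (s := S) ⟨σ, hσ⟩
  rwa [Quotient.out_eq, Quotient.out_eq] at this

end Run7.h635.Cyc
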