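import Mathlib

set_option autoImplicit false

open Finset

set_option linter.unusedSectionVars false

namespace Run7.h635.Cyc

/-- the three (signed) differences of the triple `{0, u, u + v}` in cyclic order -/
def w {G ι : Type} [AddCommGroup G] (u v : ι → G) (i : ι) : Fin 3 → G :=
  ![u i, v i, -(u i + v i)]

/-- the three points of the triple `{0, u, u + v}` -/
def sp {G ι : Type} [AddCommGroup G] (u v : ι → G) (i : ι) : Fin 3 → G :=
  ![0, u i, u i + v i]

/-- a difference system with short orbit generator `h` (`h = 0` if there is none) -/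
structure DS {G ι : Type} [AddCommGroup G] (u v : ι → G) (h : G) : Prop where
  h3 : h + h + h = 0
  inj : ∀ i j e f, w u v i e = w u v j f → i = j ∧ e = f
  opp : ∀ i j e f, w u v i e ≠ -w u v j f
  nz : ∀ i e, w u v i e ≠ 0
  nh : ∀ i e, w u v i e ≠ h
  nh' : ∀ i e, w u v i e ≠ -h
  cover : ∀ d : G, d ≠ 0 → d = h ∨ d = -h ∨ ∃ i e, d = w u v i e ∨ d = -w u v i e

section
variable {G ι : Type} [AddCommGroup G]

def swU (u v : ι → G) (c : ι → Bool) (i : ι) : G := if c i then v i else u i
def swV (u v : ι → G) (c : ι → Bool) (i : ι) : G := if c i then u i else v i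

def pe (b : Bool) : Equiv.Perm (Fin 3) := if b then Equiv.swap 0 1 else 1

theorem w_sw (u v : ι → G) (c : ι → Bool) (i : ι) (e : Fin 3) :
    w (swU u v c) (swV u v c) i e = w u v i (pe (c i) e) := by
  unfold w swU swV pe
  cases hc : c i
  · simp
  · fin_cases e
    · simp
    · simp
    · simp [add_comm, Equiv.swap_apply_def]

theorem DS.sw {u v : ι → G} {h : G} (D : DS u v h) (c : ι → Bool) :
    DS (swU u v c) (swV u v c) h := by
  refine ⟨D.h3, ?_, ?_, ?_, ?_, ?_, ?_⟩
  · intro i j e f hw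
    rw [w_sw, w_sw] at hw
    obtain ⟨h1, h2⟩ := D.inj _ _ _ _ hw
    subst h1
    exact ⟨rfl, (pe (c i)).injective h2⟩
  · intro i j e f
    rw [w_sw, w_sw]
    exact D.opp _ _ _ _
  · intro i e; rw [w_sw]; exact D.nz _ _
  · intro i e; rw [w_sw]; exact D.nh _ _
  · intro i e; rw [w_sw]; exact D.nh' _ _
  · intro d hd
    rcases D.cover d hd with h1 | h1 | ⟨i, e, h1⟩
    · exact Or.inl h1
    · exact Or.inr (Or.inl h1)
    · refine Or.inr (Or.inr ⟨i, (pe (c i)).symm e, ?_⟩)
      rw [w_sw]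
      simpa using h1

variable [DecidableEq G]

def blk (u v : ι → G) (t : G) (i : ι) : Finset G := {t, t + u i, t + (u i + v i)}

def sblk (h : G) (t : G) : Finset G := {t, t + h, t + (h + h)}

theorem mem_blk {u v : ι → G} {t x : G} {i : ι} (hx : x ∈ blk u v t i) :
    ∃ e, x = t + sp u v i e := by
  unfold blk at hx
  simp only [mem_insert, mem_singleton] at hx
  rcases hx with h | h | h
  · exact ⟨0, by simp [sp, h]⟩
  · exact ⟨1, by simp [sp, h]⟩
  · exact ⟨2, by simp [sp, h]⟩

theorem sp_step (u v : ι → G) (i : ι) (e : Fin 3) :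
    sp u v i (e + 1) = sp u v i e + w u v i e := by
  fin_cases e
  · simp [sp, w]
  · simp [sp, w]
  · simp [sp, w]

theorem mem_blk_of (u v : ι → G) (t : G) (i : ι) (e : Fin 3) :
    t + sp u v i e ∈ blk u v t i := by
  fin_cases e <;> simp [sp, blk]

theorem fin3_cases (e f : Fin 3) (h : e ≠ f) : f = e + 1 ∨ e = f + 1 := by
  revert h; revert e f; decide

/-- two different points in a block: oriented difference -/
theorem two_mem {u v : ι → G} {t x y : G} {i : ι} (hx : x ∈ blk u v t i) (hy : y ∈ blk u v t i)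
    (hxy : x ≠ y) : ∃ e, (y - x = w u v i e ∧ t = x - sp u v i e) ∨
      (y - x = -w u v i e ∧ t = y - sp u v i e) := by
  obtain ⟨e, rfl⟩ := mem_blk hx
  obtain ⟨f, rfl⟩ := mem_blk hy
  have hef : e ≠ f := by rintro rfl; exact hxy rfl
  rcases fin3_cases e f hef with h | h
  · refine ⟨e, Or.inl ⟨?_, by abel⟩⟩
    rw [h, sp_step]; abel
  · refine ⟨f, Or.inr ⟨?_, by abel⟩⟩
    rw [h, sp_step]; abel

theorem mem_sblk {h : G} (h3 : h + h + h = 0) {t x : G} (hx : x ∈ sblk h t) :
    sblk h t = sblk h x := by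
  have h2 : h + h = -h := by
    rw [eq_neg_iff_add_eq_zero, h3]
  unfold sblk at hx ⊢
  simp only [mem_insert, mem_singleton] at hx
  rw [h2] at hx ⊢
  rcases hx with hx | hx | hx
  · rw [hx]
  · subst hx
    ext z
    simp only [mem_insert, mem_singleton]
    have e1 : t + h + h = t + -h := by rw [add_assoc, h2]
    have e2 : t + h + -h = t := by abel
    rw [e1, e2]; tauto
  · subst hx
    ext z
    simp only [mem_insert, mem_singleton]
    have e1 : t + -h + -h = t + h := by
      rw [add_assoc, ← neg_add, h2, neg_neg]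
    have e2 : t + -h + h = t := by abel
    rw [e1, e2]; tauto

theorem two_mem_s {h : G} (h3 : h + h + h = 0) {t x y : G} (hx : x ∈ sblk h t)
    (hy : y ∈ sblk h t) (hxy : x ≠ y) : y - x = h ∨ y - x = -h := by
  have h2 : h + h = -h := by
    rw [eq_neg_iff_add_eq_zero, h3]
  rw [mem_sblk h3 hx] at hy
  unfold sblk at hy
  simp only [mem_insert, mem_singleton] at hy
  rw [h2] at hy
  rcases hy with hy | hy | hy
  · exact absurd hy.symm hxy
  · left; rw [hy]; abel
  · right; rw [hy]; abel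

variable [Fintype G]

open scoped Classical in
/-- the family of blocks of a difference system -/
noncomputable def fam (u v : ι → G) (h : G) : Finset (Finset G) :=
  Finset.univ.filter (fun b => (∃ t i, b = blk u v t i) ∨ (h ≠ 0 ∧ ∃ t, b = sblk h t))

theorem mem_fam {u v : ι → G} {h : G} {b : Finset G} :
    b ∈ fam u v h ↔ (∃ t i, b = blk u v t i) ∨ (h ≠ 0 ∧ ∃ t, b = sblk h t) := by
  simp [fam]

variable {u v : ι → G} {h : G}

theorem DS.nz0 (D : DS u v h) (i : ι) : u i ≠ 0 := by
  have := D.nz i 0; simpa [w] using this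

theorem DS.nz1 (D : DS u v h) (i : ι) : v i ≠ 0 := by
  have := D.nz i 1; simpa [w] using this

theorem DS.nz2 (D : DS u v h) (i : ι) : u i + v i ≠ 0 := by
  have := D.nz i 2
  intro h0
  apply this
  simp [w, h0]

theorem card_fam (D : DS u v h) : ∀ b ∈ fam u v h, b.card = 3 := by
  intro b hb
  rcases mem_fam.1 hb with ⟨t, i, rfl⟩ | ⟨h0, t, rfl⟩
  · unfold blk
    rw [card_insert_of_notMem, card_insert_of_notMem, card_singleton]
    · simp only [mem_singleton, add_right_inj]
      intro h1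
      exact D.nz1 i (by simpa using h1.symm)
    · simp only [mem_insert, mem_singleton, not_or]
      refine ⟨fun h1 => D.nz0 i (by simpa using h1.symm), fun h1 => D.nz2 i ?_⟩
      exact left_eq_add.1 h1
  · unfold sblk
    have h2 : h + h ≠ 0 := by
      intro h2
      have := D.h3
      rw [h2, zero_add] at this
      exact h0 this
    rw [card_insert_of_notMem, card_insert_of_notMem, card_singleton]
    · simp only [mem_singleton, add_right_inj]
      intro h1
      exact h0 (by simpa using h1.symm)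
    · simp only [mem_insert, mem_singleton, not_or]
      exact ⟨fun h1 => h0 (left_eq_add.1 h1), fun h1 => h2 (left_eq_add.1 h1)⟩

theorem exists_blk (D : DS u v h) {x y : G} (hxy : x ≠ y) :
    ∃ b, b ∈ fam u v h ∧ x ∈ b ∧ y ∈ b := by
  have h2 : h + h = -h := by
    rw [eq_neg_iff_add_eq_zero, D.h3]
  have hd : y - x ≠ 0 := sub_ne_zero.2 hxy.symm
  rcases D.cover _ hd with h1 | h1 | ⟨i, e, h1 | h1⟩
  · have h0 : h ≠ 0 := by rw [← h1]; exact hd
    refine ⟨sblk h x, mem_fam.2 (Or.inr ⟨h0, x, rfl⟩), by simp [sblk], ?_⟩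
    have : y = x + h := by rw [← h1]; abel
    rw [this]; simp [sblk]
  · have h0 : h ≠ 0 := by
      intro h0; rw [h0, neg_zero] at h1; exact hd h1
    refine ⟨sblk h x, mem_fam.2 (Or.inr ⟨h0, x, rfl⟩), by simp [sblk], ?_⟩
    have : y = x + (h + h) := by rw [h2, ← h1]; abel
    rw [this]; simp [sblk]
  · refine ⟨blk u v (x - sp u v i e) i, mem_fam.2 (Or.inl ⟨_, _, rfl⟩), ?_, ?_⟩
    · have := mem_blk_of u v (x - sp u v i e) i e
      rwa [sub_add_cancel] at this
    · have := mem_blk_of u v (x - sp u v i e) i (e + 1)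
      rw [sp_step, ← h1] at this
      convert this using 1
      abel
  · refine ⟨blk u v (y - sp u v i e) i, mem_fam.2 (Or.inl ⟨_, _, rfl⟩), ?_, ?_⟩
    · have := mem_blk_of u v (y - sp u v i e) i (e + 1)
      have h1' : w u v i e = -(y - x) := by rw [h1, neg_neg]
      rw [sp_step, h1'] at this
      convert this using 1
      abel
    · have := mem_blk_of u v (y - sp u v i e) i e
      rwa [sub_add_cancel] at this

theorem unique_blk (D : DS u v h) {x y : G} (hxy : x ≠ y) {b b' : Finset G}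
    (hb : b ∈ fam u v h) (hb' : b' ∈ fam u v h) (hx : x ∈ b) (hy : y ∈ b)
    (hx' : x ∈ b') (hy' : y ∈ b') : b = b' := by
  rcases mem_fam.1 hb with ⟨t, i, rfl⟩ | ⟨h0, t, rfl⟩ <;>
    rcases mem_fam.1 hb' with ⟨t', i', rfl⟩ | ⟨h0', t', rfl⟩
  · obtain ⟨e, h1⟩ := two_mem hx hy hxy
    obtain ⟨e', h1'⟩ := two_mem hx' hy' hxy
    rcases h1 with ⟨h1, h2⟩ | ⟨h1, h2⟩ <;> rcases h1' with ⟨h1', h2'⟩ | ⟨h1', h2'⟩
    · rw [h1] at h1'
      obtain ⟨rfl, rfl⟩ := D.inj _ _ _ _ h1'
      rw [h2, h2']
    · rw [h1] at h1'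
      exact absurd h1' (D.opp _ _ _ _)
    · rw [h1'] at h1
      exact absurd h1 (D.opp _ _ _ _)
    · rw [h1] at h1'
      obtain ⟨rfl, rfl⟩ := D.inj _ _ _ _ (neg_injective h1')
      rw [h2, h2']
  · obtain ⟨e, h1⟩ := two_mem hx hy hxy
    have h1' := two_mem_s D.h3 hx' hy' hxy
    rcases h1 with ⟨h1, h2⟩ | ⟨h1, h2⟩ <;> rcases h1' with h1' | h1'
    · exact absurd (h1.symm.trans h1') (D.nh _ _)
    · exact absurd (h1.symm.trans h1') (D.nh' _ _)
    · refine absurd ?_ (D.nh' i e)
      rw [← h1', h1, neg_neg]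
    · exact absurd (neg_injective (h1.symm.trans h1')) (D.nh _ _)
  · obtain ⟨e, h1⟩ := two_mem hx' hy' hxy
    have h1' := two_mem_s D.h3 hx hy hxy
    rcases h1 with ⟨h1, h2⟩ | ⟨h1, h2⟩ <;> rcases h1' with h1' | h1'
    · exact absurd (h1.symm.trans h1') (D.nh _ _)
    · exact absurd (h1.symm.trans h1') (D.nh' _ _)
    · refine absurd ?_ (D.nh' i' e)
      rw [← h1', h1, neg_neg]
    · exact absurd (neg_injective (h1.symm.trans h1')) (D.nh _ _)
  · rw [mem_sblk D.h3 hx, mem_sblk D.h3 hx']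

theorem sts_fam (D : DS u v h) (x y : G) (hxy : x ≠ y) :
    ∃! b, b ∈ fam u v h ∧ x ∈ b ∧ y ∈ b := by
  obtain ⟨b, h1, h2, h3⟩ := exists_blk D hxy
  exact ⟨b, ⟨h1, h2, h3⟩, fun b' ⟨h1', h2', h3'⟩ => unique_blk D hxy h1' h1 h2' h3' h2 h3⟩

theorem inv_fam (s : G) : ∀ b ∈ fam u v h, b.image (fun x => x + s) ∈ fam u v h := by
  intro b hb
  rw [mem_fam] at hb ⊢
  rcases hb with ⟨t, i, rfl⟩ | ⟨h0, t, rfl⟩
  · refine Or.inl ⟨t + s, i, ?_⟩
    unfold blk
    rw [image_insert, image_insert, image_singleton]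
    congr 1
    congr 1
    · abel
    · congr 1; abel
  · refine Or.inr ⟨h0, t + s, ?_⟩
    unfold sblk
    rw [image_insert, image_insert, image_singleton]
    congr 1
    congr 1
    · abel
    · congr 1; abel

/-- different choices give different families -/
theorem fam_inj (D : DS u v h) :
    Function.Injective (fun c : ι → Bool => fam (swU u v c) (swV u v c) h) := by
  intro c c' hcc
  by_contra hne
  obtain ⟨i, hi⟩ := Function.ne_iff.1 hne
  have hcc' : fam (swU u v c) (swV u v c) h = fam (swU u v c') (swV u v c') h := hcc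
  have hD := D.sw c
  have m1 : blk (swU u v c) (swV u v c) 0 i ∈ fam (swU u v c) (swV u v c) h :=
    mem_fam.2 (Or.inl ⟨_, _, rfl⟩)
  have m2 : blk (swU u v c') (swV u v c') 0 i ∈ fam (swU u v c) (swV u v c) h := by
    rw [hcc']; exact mem_fam.2 (Or.inl ⟨_, _, rfl⟩)
  have hs : ∀ c : ι → Bool, swU u v c i + swV u v c i = u i + v i := by
    intro c
    unfold swU swV
    cases c i
    · simp
    · simp [add_comm]
  have hb := unique_blk hD (x := 0) (y := u i + v i) (D.nz2 i).symm m1 m2
    (by simp [blk]) (by simp [blk, hs]) (by simp [blk]) (by simp [blk, hs])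
  have hm : swU u v c i ∈ blk (swU u v c') (swV u v c') 0 i := by
    rw [← hb]; simp [blk]
  have huv : u i ≠ v i := by
    intro h1
    have := D.inj i i 0 1 (by simpa [w] using h1)
    exact absurd this.2 (by decide)
  unfold blk at hm
  rw [hs] at hm
  simp only [mem_insert, mem_singleton, zero_add] at hm
  unfold swU at hm
  have n0 := D.nz0 i
  have n1 := D.nz1 i
  cases h1 : c i <;> cases h2 : c' i <;> simp_all

end

end Run7.h635.Cyc
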