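import Mathlib

set_option autoImplicit false

namespace Run7.h635.Cyc

/-- a (hooked if `e = 1`) Rosa sequence of order `t` -/
def RoOK (t e : ℤ) (X : ℤ → ℤ) : Prop :=
  ∀ k, 1 ≤ k → k ≤ t → 1 ≤ X k ∧ X k + k ≤ 2 * t + 1 + e ∧ X k ≠ t + 1 ∧ X k + k ≠ t + 1 ∧
    (e = 1 → X k ≠ 2 * t + 1 ∧ X k + k ≠ 2 * t + 1) ∧
    ∀ k', 1 ≤ k' → k' ≤ t → (X k = X k' → k = k') ∧ (X k + k = X k' + k' → k = k') ∧
      X k ≠ X k' + k'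

def ro0 (s d : ℤ) : ℤ :=
  if d = 4 * s then 2 * s + 1 else if d = 2 * s + 2 then 2 * s else if d = 1 then 7 * s + 2
  else if d % 2 = 1 then (4 * s + 1 - d) / 2
  else if 2 * s + 4 ≤ d then (12 * s + 4 - d) / 2 else (12 * s + 2 - d) / 2

def ro1 (s d : ℤ) : ℤ :=
  if d = 4 * s + 1 then 2 * s + 2 else if d = 2 * s + 2 then 6 * s + 2 else if d = 1 then s
  else if d % 2 = 1 then (12 * s + 5 - d) / 2
  else if 2 * s + 4 ≤ d then (4 * s + 2 - d) / 2 else (4 * s + 4 - d) / 2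

def ro2 (s d : ℤ) : ℤ :=
  if d = 4 * s + 2 then s + 1 else if d = 2 * s + 2 then 3 * s + 2
  else if d = 2 * s + 1 then 6 * s + 5
  else if d % 2 = 1 then (4 * s + 3 - d) / 2
  else if 2 * s + 4 ≤ d then (12 * s + 8 - d) / 2 else (12 * s + 10 - d) / 2

def ro3 (s d : ℤ) : ℤ :=
  if d = 4 * s - 1 then 2 * s else if d = 2 * s then 1 else if d = 1 then 7 * s - 1
  else if d % 2 = 1 then (4 * s + 1 - d) / 2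
  else if 2 * s + 2 ≤ d then (12 * s - d) / 2 else (12 * s - 2 - d) / 2

theorem ro0_ok (s : ℤ) (hs : 2 ≤ s) : RoOK (4 * s) 0 (ro0 s) := by
  intro k h1 h2
  refine ⟨?_, ?_, ?_, ?_, by norm_num, fun k' h3 h4 => ⟨?_, ?_, ?_⟩⟩ <;> unfold ro0 <;>
    split_ifs <;> omega

theorem ro1_ok (s : ℤ) (hs : 2 ≤ s) : RoOK (4 * s + 1) 1 (ro1 s) := by
  intro k h1 h2
  refine ⟨?_, ?_, ?_, ?_, fun _ => ⟨?_, ?_⟩, fun k' h3 h4 => ⟨?_, ?_, ?_⟩⟩ <;> unfold ro1 <;>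
    split_ifs <;> omega

theorem ro2_ok (s : ℤ) (hs : 2 ≤ s) : RoOK (4 * s + 2) 1 (ro2 s) := by
  intro k h1 h2
  refine ⟨?_, ?_, ?_, ?_, fun _ => ⟨?_, ?_⟩, fun k' h3 h4 => ⟨?_, ?_, ?_⟩⟩ <;> unfold ro2 <;>
    split_ifs <;> omega

theorem ro3_ok (s : ℤ) (hs : 2 ≤ s) : RoOK (4 * s - 1) 0 (ro3 s) := by
  intro k h1 h2
  refine ⟨?_, ?_, ?_, ?_, by norm_num, fun k' h3 h4 => ⟨?_, ?_, ?_⟩⟩ <;> unfold ro3 <;>
    split_ifs <;> omega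

theorem ro_exists (t : ℤ) (ht : 10 ≤ t) : ∃ e X, (e = 0 ∨ e = 1) ∧ RoOK t e X := by
  have h : t % 4 = 0 ∨ t % 4 = 1 ∨ t % 4 = 2 ∨ t % 4 = 3 := by omega
  rcases h with h | h | h | h
  · obtain ⟨s, rfl⟩ : ∃ s, t = 4 * s := ⟨t / 4, by omega⟩
    exact ⟨0, _, Or.inl rfl, ro0_ok s (by omega)⟩
  · obtain ⟨s, rfl⟩ : ∃ s, t = 4 * s + 1 := ⟨t / 4, by omega⟩
    exact ⟨1, _, Or.inr rfl, ro1_ok s (by omega)⟩
  · obtain ⟨s, rfl⟩ : ∃ s, t = 4 * s + 2 := ⟨t / 4, by omega⟩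
    exact ⟨1, _, Or.inr rfl, ro2_ok s (by omega)⟩
  · obtain ⟨s, rfl⟩ : ∃ s, t = 4 * s - 1 := ⟨(t + 1) / 4, by omega⟩
    exact ⟨0, _, Or.inl rfl, ro3_ok s (by omega)⟩

end Run7.h635.Cyc
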