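import Mathlib
import Pool.Agent.R12.DMSk
import Pool.Agent.Run7.h635.Rosa
import Pool.Agent.Run7.h635.CycFam

set_option autoImplicit false

open Finset

namespace Run7.h635.Cyc

theorem cover_of_card {G : Type} [AddCommGroup G] [Fintype G] [DecidableEq G] {k : ℕ}
    (u v : Fin k → G) (h : G)
    (inj : ∀ i j e f, w u v i e = w u v j f → i = j ∧ e = f)
    (opp : ∀ i j e f, w u v i e ≠ -w u v j f)
    (nz : ∀ i e, w u v i e ≠ 0) (nh : ∀ i e, w u v i e ≠ h) (nh' : ∀ i e, w u v i e ≠ -h)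
    (hcard : Fintype.card G ≤ 6 * k + ({0, h, -h} : Finset G).card) (d : G) (hd : d ≠ 0) :
    d = h ∨ d = -h ∨ ∃ i e, d = w u v i e ∨ d = -w u v i e := by
  let g : Fin k × Fin 3 × Bool → G := fun p => if p.2.2 then w u v p.1 p.2.1 else -w u v p.1 p.2.1
  have hg : Function.Injective g := by
    rintro ⟨i, e, a⟩ ⟨j, f, b⟩ hij
    cases a <;> cases b
    · have h1 : -w u v i e = -w u v j f := by simpa [g] using hij
      obtain ⟨rfl, rfl⟩ := inj _ _ _ _ (neg_injective h1)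
      rfl
    · have h1 : -w u v i e = w u v j f := by simpa [g] using hij
      exact absurd h1.symm (opp _ _ _ _)
    · have h1 : w u v i e = -w u v j f := by simpa [g] using hij
      exact absurd h1 (opp _ _ _ _)
    · have h1 : w u v i e = w u v j f := by simpa [g] using hij
      obtain ⟨rfl, rfl⟩ := inj _ _ _ _ h1
      rfl
  have hdisj : Disjoint (univ.image g) ({0, h, -h} : Finset G) := by
    rw [Finset.disjoint_left]
    intro x hx hx'
    obtain ⟨⟨i, e, a⟩, -, rfl⟩ := Finset.mem_image.1 hx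
    simp only [mem_insert, mem_singleton] at hx'
    cases a
    · have e1 : g (i, e, false) = -w u v i e := by simp [g]
      rw [e1] at hx'
      rcases hx' with h1 | h1 | h1
      · exact nz i e (neg_eq_zero.1 h1)
      · exact nh' i e (by rw [← h1, neg_neg])
      · exact nh i e (neg_injective h1)
    · have e1 : g (i, e, true) = w u v i e := by simp [g]
      rw [e1] at hx'
      rcases hx' with h1 | h1 | h1
      · exact nz i e h1
      · exact nh i e h1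
      · exact nh' i e h1
  have hU : (univ.image g) ∪ ({0, h, -h} : Finset G) = univ := by
    apply Finset.eq_univ_of_card
    apply le_antisymm (Finset.card_le_univ _)
    rw [Finset.card_union_of_disjoint hdisj, Finset.card_image_of_injective _ hg]
    have : (univ : Finset (Fin k × Fin 3 × Bool)).card = 6 * k := by
      rw [Finset.card_univ, Fintype.card_prod, Fintype.card_prod]
      simp; ring
    rw [this]
    exact hcard
  have hm : d ∈ (univ.image g) ∪ ({0, h, -h} : Finset G) := by rw [hU]; exact mem_univ _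
  rw [mem_union] at hm
  rcases hm with hm | hm
  · obtain ⟨⟨i, e, a⟩, -, hx⟩ := Finset.mem_image.1 hm
    refine Or.inr (Or.inr ⟨i, e, ?_⟩)
    cases a
    · right; rw [← hx]; simp [g]
    · left; rw [← hx]; simp [g]
  · simp only [mem_insert, mem_singleton] at hm
    rcases hm with h1 | h1 | h1
    · exact absurd h1 hd
    · exact Or.inl h1
    · exact Or.inr (Or.inl h1)

/-- integer representatives of the differences -/
def W (a : ℤ → ℤ) {k : ℕ} (i : Fin k) : Fin 3 → ℤ :=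
  ![(i : ℤ) + 1, a ((i : ℤ) + 1), -(((i : ℤ) + 1) + a ((i : ℤ) + 1))]

theorem w_cast (a : ℤ → ℤ) (n : ℕ) {k : ℕ} (i : Fin k) (e : Fin 3) :
    w (fun i : Fin k => (((i : ℤ) + 1 : ℤ) : ZMod n)) (fun i : Fin k => ((a ((i : ℤ) + 1) : ℤ) : ZMod n))
      i e = ((W a i e : ℤ) : ZMod n) := by
  fin_cases e <;> simp [w, W]

theorem dvd_cases (n z : ℤ) (h : n ∣ z) (h1 : -(2 * n) < z) (h2 : z < 2 * n) :
    z = 0 ∨ z = n ∨ z = -n := by
  obtain ⟨q, rfl⟩ := h
  have hn : 0 < n := by linarith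
  have q1 : -2 < q := by
    by_contra hq
    push Not at hq
    nlinarith
  have q2 : q < 2 := by
    by_contra hq
    push Not at hq
    nlinarith
  have : q = -1 ∨ q = 0 ∨ q = 1 := by omega
  rcases this with rfl | rfl | rfl
  · right; right; ring
  · left; ring
  · right; left; ring

theorem cast_eq_cases {n : ℕ} {x y : ℤ} (h : (x : ZMod n) = (y : ZMod n))
    (h1 : -(2 * (n : ℤ)) < y - x) (h2 : y - x < 2 * n) :
    y - x = 0 ∨ y - x = n ∨ y - x = -n :=
  dvd_cases n _ ((ZMod.intCast_eq_intCast_iff_dvd_sub x y n).1 h) h1 h2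

/-- a difference sequence: `k = ⌊n/6⌋` -/
structure Seq (n k : ℤ) (a : ℤ → ℤ) : Prop where
  lo : ∀ i, 1 ≤ i → i ≤ k → k + 1 ≤ a i
  hi : ∀ i, 1 ≤ i → i ≤ k → a i + i ≤ 3 * k + 2
  third : ∀ i, 1 ≤ i → i ≤ k → 3 * a i ≠ n ∧ 3 * (a i + i) ≠ n
  aa : ∀ i j, 1 ≤ i → i ≤ k → 1 ≤ j → j ≤ k → a i = a j → i = j
  bb : ∀ i j, 1 ≤ i → i ≤ k → 1 ≤ j → j ≤ k → a i + i = a j + j → i = j
  ab : ∀ i j, 1 ≤ i → i ≤ k → 1 ≤ j → j ≤ k → a i ≠ a j + j
  saa : ∀ i j, 1 ≤ i → i ≤ k → 1 ≤ j → j ≤ k → a i + a j ≠ n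
  sab : ∀ i j, 1 ≤ i → i ≤ k → 1 ≤ j → j ≤ k → a i + (a j + j) ≠ n
  sbb : ∀ i j, 1 ≤ i → i ≤ k → 1 ≤ j → j ≤ k → (a i + i) + (a j + j) ≠ n

theorem seq1 (k : ℤ) (hk : 6 ≤ k) : ∃ a, Seq (6 * k + 1) k a := by
  obtain ⟨e, X, he, hX⟩ := Pool.Agent.R12.DM.sk_exists k hk
  refine ⟨fun i => X i + k, ?_, ?_, ?_, ?_, ?_, ?_, ?_, ?_, ?_⟩
  · intro i h1 h2
    have := hX i h1 h2
    omega
  · intro i h1 h2
    have := hX i h1 h2
    rcases he with rfl | rfl <;> omega
  · intro i h1 h2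
    constructor <;> omega
  · intro i j h1 h2 h3 h4 h5
    have := ((hX i h1 h2).2.2.2 j h3 h4).1
    exact this (by simpa using h5)
  · intro i j h1 h2 h3 h4 h5
    have := ((hX i h1 h2).2.2.2 j h3 h4).2.1
    exact this (by linarith)
  · intro i j h1 h2 h3 h4 h5
    have := ((hX i h1 h2).2.2.2 j h3 h4).2.2
    exact this (by linarith)
  · intro i j h1 h2 h3 h4 h5
    have p := hX i h1 h2
    have q := hX j h3 h4
    obtain ⟨p1, p2, p3, -⟩ := p
    obtain ⟨q1, q2, q3, -⟩ := q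
    rcases he with rfl | rfl
    · omega
    · have := p3 rfl
      have := q3 rfl
      omega
  · intro i j h1 h2 h3 h4 h5
    have p := hX i h1 h2
    have q := hX j h3 h4
    obtain ⟨p1, p2, p3, -⟩ := p
    obtain ⟨q1, q2, q3, -⟩ := q
    rcases he with rfl | rfl
    · omega
    · have := p3 rfl
      have := q3 rfl
      omega
  · intro i j h1 h2 h3 h4 h5
    have p := hX i h1 h2
    have q := hX j h3 h4
    obtain ⟨p1, p2, p3, -⟩ := p
    obtain ⟨q1, q2, q3, -⟩ := q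
    rcases he with rfl | rfl
    · omega
    · have := p3 rfl
      have := q3 rfl
      omega

theorem seq3 (k : ℤ) (hk : 10 ≤ k) : ∃ a, Seq (6 * k + 3) k a := by
  obtain ⟨e, X, he, hX⟩ := ro_exists k hk
  refine ⟨fun i => X i + k, ?_, ?_, ?_, ?_, ?_, ?_, ?_, ?_, ?_⟩
  · intro i h1 h2
    have := hX i h1 h2
    omega
  · intro i h1 h2
    have := hX i h1 h2
    rcases he with rfl | rfl <;> omega
  · intro i h1 h2
    have := hX i h1 h2
    constructor <;> omega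
  · intro i j h1 h2 h3 h4 h5
    have := ((hX i h1 h2).2.2.2.2.2 j h3 h4).1
    exact this (by simpa using h5)
  · intro i j h1 h2 h3 h4 h5
    have := ((hX i h1 h2).2.2.2.2.2 j h3 h4).2.1
    exact this (by linarith)
  · intro i j h1 h2 h3 h4 h5
    have := ((hX i h1 h2).2.2.2.2.2 j h3 h4).2.2
    exact this (by linarith)
  · intro i j h1 h2 h3 h4 h5
    have p := hX i h1 h2
    have q := hX j h3 h4
    obtain ⟨p1, p2, -, -, p3, -⟩ := p
    obtain ⟨q1, q2, -, -, q3, -⟩ := q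
    rcases he with rfl | rfl
    · omega
    · have := p3 rfl
      have := q3 rfl
      omega
  · intro i j h1 h2 h3 h4 h5
    have p := hX i h1 h2
    have q := hX j h3 h4
    obtain ⟨p1, p2, -, -, p3, -⟩ := p
    obtain ⟨q1, q2, -, -, q3, -⟩ := q
    rcases he with rfl | rfl
    · omega
    · have := p3 rfl
      have := q3 rfl
      omega
  · intro i j h1 h2 h3 h4 h5
    have p := hX i h1 h2
    have q := hX j h3 h4
    obtain ⟨p1, p2, -, -, p3, -⟩ := p
    obtain ⟨q1, q2, -, -, q3, -⟩ := q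
    rcases he with rfl | rfl
    · omega
    · have := p3 rfl
      have := q3 rfl
      omega

/-- bounds and separation of the integer representatives -/
theorem W_facts {n : ℤ} {k : ℕ} {a : ℤ → ℤ} (S : Seq n k a) (i j : Fin k) :
    1 ≤ (i : ℤ) + 1 ∧ (i : ℤ) + 1 ≤ k ∧ 1 ≤ (j : ℤ) + 1 ∧ (j : ℤ) + 1 ≤ k := by
  have h1 := i.2
  have h2 := j.2
  omega

theorem W_cases (a : ℤ → ℤ) {k : ℕ} (i : Fin k) (e : Fin 3) :
    (e = 0 ∧ W a i e = (i : ℤ) + 1) ∨ (e = 1 ∧ W a i e = a ((i : ℤ) + 1)) ∨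
      (e = 2 ∧ W a i e = -(((i : ℤ) + 1) + a ((i : ℤ) + 1))) := by
  fin_cases e
  · left; exact ⟨rfl, rfl⟩
  · right; left; exact ⟨rfl, rfl⟩
  · right; right; exact ⟨rfl, rfl⟩

theorem W_inj {n k : ℕ} (hn : (n : ℤ) = 6 * k + 1 ∨ (n : ℤ) = 6 * k + 3) {a : ℤ → ℤ}
    (hk : 2 ≤ k) (S : Seq n k a) (i j : Fin k) (e f : Fin 3)
    (h : ((W a i e : ℤ) : ZMod n) = ((W a j f : ℤ) : ZMod n)) : i = j ∧ e = f := by
  obtain ⟨h1, h2, h3, h4⟩ := W_facts S i j
  have l1 := S.lo _ h1 h2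
  have l2 := S.lo _ h3 h4
  have u1 := S.hi _ h1 h2
  have u2 := S.hi _ h3 h4
  have aa := S.aa _ _ h1 h2 h3 h4
  have bb := S.bb _ _ h1 h2 h3 h4
  have ab := S.ab _ _ h1 h2 h3 h4
  have ba := S.ab _ _ h3 h4 h1 h2
  have saa := S.saa _ _ h1 h2 h3 h4
  have sab := S.sab _ _ h1 h2 h3 h4
  have sba := S.sab _ _ h3 h4 h1 h2
  have sbb := S.sbb _ _ h1 h2 h3 h4
  have key : (i : ℤ) + 1 = (j : ℤ) + 1 → i = j := by
    intro h; apply Fin.ext; omega
  have hk' : (2 : ℤ) ≤ k := by exact_mod_cast hk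
  have ci := W_cases a i e
  have cj := W_cases a j f
  generalize W a i e = wi at *
  generalize W a j f = wj at *
  generalize a ((i : ℤ) + 1) = ai at *
  generalize a ((j : ℤ) + 1) = aj at *
  rcases ci with ⟨rfl, rfl⟩ | ⟨rfl, rfl⟩ | ⟨rfl, rfl⟩ <;>
    rcases cj with ⟨rfl, rfl⟩ | ⟨rfl, rfl⟩ | ⟨rfl, rfl⟩ <;>
    rcases cast_eq_cases h (by omega) (by omega) with h5 | h5 | h5 <;>
    first
    | (exfalso; omega)
    | (refine ⟨key ?_, rfl⟩; omega)

theorem W_opp {n k : ℕ} (hn : (n : ℤ) = 6 * k + 1 ∨ (n : ℤ) = 6 * k + 3) {a : ℤ → ℤ}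
    (hk : 2 ≤ k) (S : Seq n k a) (i j : Fin k) (e f : Fin 3) :
    ((W a i e : ℤ) : ZMod n) ≠ -((W a j f : ℤ) : ZMod n) := by
  intro h
  rw [← Int.cast_neg] at h
  obtain ⟨h1, h2, h3, h4⟩ := W_facts S i j
  have l1 := S.lo _ h1 h2
  have l2 := S.lo _ h3 h4
  have u1 := S.hi _ h1 h2
  have u2 := S.hi _ h3 h4
  have aa := S.aa _ _ h1 h2 h3 h4
  have bb := S.bb _ _ h1 h2 h3 h4
  have ab := S.ab _ _ h1 h2 h3 h4
  have ba := S.ab _ _ h3 h4 h1 h2
  have saa := S.saa _ _ h1 h2 h3 h4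
  have sab := S.sab _ _ h1 h2 h3 h4
  have sba := S.sab _ _ h3 h4 h1 h2
  have sbb := S.sbb _ _ h1 h2 h3 h4
  have hk' : (2 : ℤ) ≤ k := by exact_mod_cast hk
  have ci := W_cases a i e
  have cj := W_cases a j f
  generalize W a i e = wi at *
  generalize W a j f = wj at *
  generalize a ((i : ℤ) + 1) = ai at *
  generalize a ((j : ℤ) + 1) = aj at *
  rcases ci with ⟨rfl, rfl⟩ | ⟨rfl, rfl⟩ | ⟨rfl, rfl⟩ <;>
    rcases cj with ⟨rfl, rfl⟩ | ⟨rfl, rfl⟩ | ⟨rfl, rfl⟩ <;>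
    rcases cast_eq_cases h (by omega) (by omega) with h5 | h5 | h5 <;>
    omega

theorem W_nz {n k : ℕ} (hn : (n : ℤ) = 6 * k + 1 ∨ (n : ℤ) = 6 * k + 3) {a : ℤ → ℤ}
    (hk : 2 ≤ k) (S : Seq n k a) (i : Fin k) (e : Fin 3) :
    ((W a i e : ℤ) : ZMod n) ≠ 0 := by
  intro h
  rw [← Int.cast_zero] at h
  obtain ⟨h1, h2, -, -⟩ := W_facts S i i
  have l1 := S.lo _ h1 h2
  have u1 := S.hi _ h1 h2
  have hk' : (2 : ℤ) ≤ k := by exact_mod_cast hk
  have ci := W_cases a i e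
  generalize W a i e = wi at *
  generalize a ((i : ℤ) + 1) = ai at *
  rcases ci with ⟨rfl, rfl⟩ | ⟨rfl, rfl⟩ | ⟨rfl, rfl⟩ <;>
    rcases cast_eq_cases h (by omega) (by omega) with h5 | h5 | h5 <;>
    omega

theorem W_nh {n k : ℕ} (hn : (n : ℤ) = 6 * k + 3) {a : ℤ → ℤ}
    (hk : 2 ≤ k) (S : Seq n k a) (i : Fin k) (e : Fin 3) :
    ((W a i e : ℤ) : ZMod n) ≠ ((2 * k + 1 : ℤ) : ZMod n) := by
  intro h
  obtain ⟨h1, h2, -, -⟩ := W_facts S i i
  have l1 := S.lo _ h1 h2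
  have u1 := S.hi _ h1 h2
  have t1 := S.third _ h1 h2
  have hk' : (2 : ℤ) ≤ k := by exact_mod_cast hk
  have ci := W_cases a i e
  generalize W a i e = wi at *
  generalize a ((i : ℤ) + 1) = ai at *
  rcases ci with ⟨rfl, rfl⟩ | ⟨rfl, rfl⟩ | ⟨rfl, rfl⟩ <;>
    rcases cast_eq_cases h (by omega) (by omega) with h5 | h5 | h5 <;>
    omega

theorem W_nh' {n k : ℕ} (hn : (n : ℤ) = 6 * k + 3) {a : ℤ → ℤ}
    (hk : 2 ≤ k) (S : Seq n k a) (i : Fin k) (e : Fin 3) :
    ((W a i e : ℤ) : ZMod n) ≠ -((2 * k + 1 : ℤ) : ZMod n) := by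
  intro h
  rw [← Int.cast_neg] at h
  obtain ⟨h1, h2, -, -⟩ := W_facts S i i
  have l1 := S.lo _ h1 h2
  have u1 := S.hi _ h1 h2
  have t1 := S.third _ h1 h2
  have hk' : (2 : ℤ) ≤ k := by exact_mod_cast hk
  have ci := W_cases a i e
  generalize W a i e = wi at *
  generalize a ((i : ℤ) + 1) = ai at *
  rcases ci with ⟨rfl, rfl⟩ | ⟨rfl, rfl⟩ | ⟨rfl, rfl⟩ <;>
    rcases cast_eq_cases h (by omega) (by omega) with h5 | h5 | h5 <;>
    omega

/-- difference systems exist in `ZMod n` -/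
theorem exists_DS (n : ℕ) (hn : n % 6 = 1 ∨ n % 6 = 3) (hk : 10 ≤ n / 6) :
    ∃ (u v : Fin (n / 6) → ZMod n) (h : ZMod n), DS u v h := by
  haveI : NeZero n := ⟨by omega⟩
  rcases hn with hn | hn
  · have hn' : (n : ℤ) = 6 * (n / 6 : ℕ) + 1 := by omega
    obtain ⟨a, S⟩ := seq1 (n / 6 : ℕ) (by omega)
    rw [← hn'] at S
    have inj := W_inj (Or.inl hn') (by omega) S
    have opp := W_opp (Or.inl hn') (by omega) S
    have nz := W_nz (Or.inl hn') (by omega) S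
    simp only [← w_cast] at inj opp nz
    refine ⟨_, _, 0, ⟨by simp, inj, opp, nz, nz, by simpa using nz, ?_⟩⟩
    intro d hd
    refine cover_of_card _ _ 0 inj opp nz nz (by simpa using nz) ?_ d hd
    rw [ZMod.card]
    simp
    omega
  · have hn' : (n : ℤ) = 6 * (n / 6 : ℕ) + 3 := by omega
    obtain ⟨a, S⟩ := seq3 (n / 6 : ℕ) (by omega)
    rw [← hn'] at S
    have inj := W_inj (Or.inr hn') (by omega) S
    have opp := W_opp (Or.inr hn') (by omega) S
    have nz := W_nz (Or.inr hn') (by omega) S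
    have nh := W_nh hn' (by omega) S
    have nh' := W_nh' hn' (by omega) S
    simp only [← w_cast] at inj opp nz nh nh'
    set h : ZMod n := ((2 * (n / 6 : ℕ) + 1 : ℤ) : ZMod n) with hh
    have h3 : h + h + h = 0 := by
      rw [hh, ← Int.cast_add, ← Int.cast_add]
      rw [ZMod.intCast_zmod_eq_zero_iff_dvd]
      exact ⟨1, by omega⟩
    have h0 : h ≠ 0 := by
      intro h0
      rw [hh, ← Int.cast_zero] at h0
      rcases cast_eq_cases h0 (by omega) (by omega) with h5 | h5 | h5 <;> omega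
    have h2 : h ≠ -h := by
      intro h2
      rw [hh, ← Int.cast_neg] at h2
      rcases cast_eq_cases h2 (by omega) (by omega) with h5 | h5 | h5 <;> omega
    refine ⟨_, _, h, ⟨h3, inj, opp, nz, nh, nh', ?_⟩⟩
    intro d hd
    refine cover_of_card _ _ h inj opp nz nh nh' ?_ d hd
    rw [ZMod.card, Finset.card_insert_of_notMem, Finset.card_insert_of_notMem,
      Finset.card_singleton]
    · omega
    · simpa using h2
    · simp only [mem_insert, mem_singleton, not_or]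
      exact ⟨fun h => h0 h.symm, fun h => h0 (neg_eq_zero.1 h.symm)⟩

theorem sq_le_two_pow (k : ℕ) (hk : 6 ≤ k) : (k + 1) * (k + 1) ≤ 2 ^ k := by
  induction k, hk using Nat.le_induction with
  | base => norm_num
  | succ k hk ih =>
    rw [pow_succ]
    nlinarith

end Run7.h635.Cyc
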