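import Mathlib
import Pool.Agent.Run7.h635.Biggs

set_option autoImplicit false

open Finset

namespace Run7.h635.NA

theorem double_count {Y W : Type} [Fintype Y] [DecidableEq Y] [DecidableEq W] (a : Fin 3 → Y → Y)
    (ha : ∀ i x, a i (a i x) = x) (g : ℕ) (hF : Free a g) (F : Y → Finset W)
    (hE : ∀ w, (univ.filter (fun x => w ∈ F x)).card ≤ g) :
    ∑ x, (F x).card ≤ ∑ x, ∑ i : Fin 3, (F x \ F (a i x)).card := by
  set U : Finset W := univ.biUnion F with hU
  have h1 : ∀ x, (F x).card = ∑ w ∈ U, if w ∈ F x then 1 else 0 := by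
    intro x
    rw [← Finset.card_filter]
    congr 1
    ext w
    rw [mem_filter]
    constructor
    · intro hw
      exact ⟨by rw [hU, mem_biUnion]; exact ⟨x, mem_univ _, hw⟩, hw⟩
    · exact fun h => h.2
  have h2 : ∀ x i, (F x \ F (a i x)).card =
      ∑ w ∈ U, if (w ∈ F x ∧ w ∉ F (a i x)) then 1 else 0 := by
    intro x i
    rw [← Finset.card_filter]
    congr 1
    ext w
    rw [mem_filter, mem_sdiff]
    constructor
    · intro hw
      exact ⟨by rw [hU, mem_biUnion]; exact ⟨x, mem_univ _, hw.1⟩, hw⟩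
    · exact fun h => h.2
  have h3 : ∑ x, (F x).card = ∑ w ∈ U, (univ.filter (fun x => w ∈ F x)).card := by
    simp_rw [h1]
    rw [Finset.sum_comm]
    refine Finset.sum_congr rfl fun w _ => ?_
    rw [Finset.card_filter]
  have h4 : ∑ x, ∑ i : Fin 3, (F x \ F (a i x)).card =
      ∑ w ∈ U, (bd a (univ.filter (fun x => w ∈ F x))).card := by
    simp_rw [h2]
    have h5 : ∀ x, (∑ i : Fin 3, ∑ w ∈ U, if (w ∈ F x ∧ w ∉ F (a i x)) then 1 else 0) =
        ∑ w ∈ U, ∑ i : Fin 3, if (w ∈ F x ∧ w ∉ F (a i x)) then 1 else 0 := fun x =>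
      Finset.sum_comm
    simp_rw [h5]
    rw [Finset.sum_comm]
    refine Finset.sum_congr rfl fun w _ => ?_
    have h6 : bd a (univ.filter (fun x => w ∈ F x)) =
        (univ : Finset (Y × Fin 3)).filter (fun p => w ∈ F p.1 ∧ w ∉ F (a p.2 p.1)) := by
      ext p
      simp [bd]
    rw [h6, Finset.card_filter, Fintype.sum_prod_type]
  rw [h3, h4]
  refine Finset.sum_le_sum fun w _ => ?_
  exact iso_ineq a ha g hF _ _ rfl (hE w)

/-- the space has no property A -/
theorem not_A : ¬ (∀ R : ℝ, 0 < R → ∀ ε : ℝ, 0 < ε →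
        ∃ S : ℝ, ∃ A : X → Set (X × ℕ),
          (∀ x, (A x).Finite) ∧ (∀ x, (x, 0) ∈ A x) ∧
          (∀ x, ∀ w ∈ A x, dist w.1 x ≤ S) ∧
          ∀ x y, dist x y < R →
            ((symmDiff (A x) (A y)).ncard : ℝ) < ε * ((A x ∩ A y).ncard : ℝ)) := by
  classical
  intro h
  obtain ⟨S, A, hfin, h0, hS, hsd⟩ := h 2 (by norm_num) (1 / 3) (by norm_num)
  obtain ⟨N, hN⟩ := bdd_geom (max S 0 + 1) (by positivity)
  have : Fintype (Equiv.Perm (V N)) := Fintype.ofFinite _
  let F : Equiv.Perm (V N) → Finset (X × ℕ) := fun σ => (hfin (mk N σ)).toFinset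
  have hmemF : ∀ σ w, w ∈ F σ ↔ w ∈ A (mk N σ) := fun σ w => Set.Finite.mem_toFinset _
  have hmk : Function.Injective (mk N) := by
    intro σ τ hst
    exact eq_of_heq (Sigma.mk.inj hst).2
  have h1 := double_count (aa N) (aa_aa N) N (free_aa N) F (by
    intro w
    have h2 : ((univ.filter (fun x => w ∈ F x)).image (mk N) : Set X) ⊆
        Metric.ball w.1 (max S 0 + 1) := by
      intro x hx
      rw [Finset.mem_coe] at hx
      obtain ⟨σ, hσ, rfl⟩ := mem_image.1 hx
      rw [mem_filter, hmemF] at hσ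
      have h3 := hS _ _ hσ.2
      rw [Metric.mem_ball, dist_comm]
      have := le_max_left S 0
      linarith
    have h3 := Set.ncard_le_ncard h2 (hN w.1).1
    rw [Set.ncard_coe_finset, card_image_of_injective _ hmk] at h3
    exact h3.trans (hN w.1).2)
  have h2 : ∀ σ : Equiv.Perm (V N), ∑ i : Fin 3, ((F σ \ F (aa N i σ)).card : ℝ) < (F σ).card := by
    intro σ
    have h3 : ∀ i : Fin 3, ((F σ \ F (aa N i σ)).card : ℝ) < 1 / 3 * (F σ).card := by
      intro i
      have h4 := hsd _ _ (dist_aa N i σ)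
      have h5 : (F σ \ F (aa N i σ)).card ≤
          (symmDiff (A (mk N σ)) (A (mk N (aa N i σ)))).ncard := by
        rw [← Set.ncard_coe_finset]
        refine Set.ncard_le_ncard ?_ ?_
        · intro w hw
          rw [Finset.mem_coe, mem_sdiff, hmemF, hmemF] at hw
          exact Or.inl hw
        · exact ((hfin _).union (hfin _)).subset (fun w hw => by
            rcases hw with hw | hw
            · exact Or.inl hw.1
            · exact Or.inr hw.1)
      have h6 : (A (mk N σ) ∩ A (mk N (aa N i σ))).ncard ≤ (F σ).card := by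
        rw [← Set.ncard_coe_finset]
        refine Set.ncard_le_ncard ?_ (Finset.finite_toSet _)
        intro w hw
        rw [Finset.mem_coe, hmemF]
        exact hw.1
      have h5' : ((F σ \ F (aa N i σ)).card : ℝ) ≤
          (symmDiff (A (mk N σ)) (A (mk N (aa N i σ)))).ncard := by exact_mod_cast h5
      have h6' : ((A (mk N σ) ∩ A (mk N (aa N i σ))).ncard : ℝ) ≤ (F σ).card := by
        exact_mod_cast h6
      linarith
    rw [Fin.sum_univ_three]
    have a0 := h3 0
    have a1 := h3 1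
    have a2 := h3 2
    linarith
  have h3 : ∑ σ : Equiv.Perm (V N), ∑ i : Fin 3, ((F σ \ F (aa N i σ)).card : ℝ) <
      ∑ σ : Equiv.Perm (V N), ((F σ).card : ℝ) :=
    Finset.sum_lt_sum_of_nonempty ⟨1, mem_univ _⟩ (fun σ _ => h2 σ)
  have h4 : (∑ σ : Equiv.Perm (V N), ((F σ).card : ℝ)) ≤
      ∑ σ : Equiv.Perm (V N), ∑ i : Fin 3, ((F σ \ F (aa N i σ)).card : ℝ) := by
    exact_mod_cast h1
  linarith

end Run7.h635.NA
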