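import Mathlib

set_option autoImplicit false

open MeasureTheory Filter Topology
open scoped ENNReal

set_option linter.unusedSectionVars false

namespace Run7.h635.NA

section
variable {α E : Type} [MeasurableSpace α] [Countable α] [MeasurableSingletonClass α]
  [NormedAddCommGroup E] [NormedSpace ℝ E] (ν : Measure α)

theorem meas_all (s : Set α) : MeasurableSet s := (Set.to_countable s).measurableSet

/-- norm of an indicator in `L¹` -/
theorem norm_ind (s : Set α) (hs : ν s ≠ ⊤) (c : E) :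
    ‖indicatorConstLp 1 (meas_all s) hs c‖ = ‖c‖ * ν.real s := by
  rw [norm_indicatorConstLp (by norm_num) (by norm_num)]
  simp

variable [Fact ((1 : ℝ≥0∞) ≤ 1)]

theorem bound_finset (T : Lp E 1 ν →L[ℝ] Lp E 1 ν) (C : ℝ)
    (hfin : ∀ x : α, ν {x} ≠ ⊤)
    (h : ∀ (x : α) (c : E), ‖T (indicatorConstLp 1 (meas_all {x}) (hfin x) c)‖ ≤
      C * ‖indicatorConstLp (μ := ν) 1 (meas_all {x}) (hfin x) c‖) (c : E) (s : Finset α) :
    ∀ hs : ν (s : Set α) ≠ ⊤, ‖T (indicatorConstLp 1 (meas_all (s : Set α)) hs c)‖ ≤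
      C * ‖indicatorConstLp (μ := ν) 1 (meas_all (s : Set α)) hs c‖ := by
  classical
  induction s using Finset.induction_on with
  | empty =>
    intro hs
    have e : indicatorConstLp (μ := ν) 1 (meas_all ((∅ : Finset α) : Set α)) hs c = 0 := by
      rw [← norm_eq_zero, norm_ind]; simp
    rw [e]; simp
  | insert a s ha ih =>
    intro hs
    have hs1 : ν (s : Set α) ≠ ⊤ := ne_top_of_le_ne_top hs (measure_mono (by simp))
    have hd : Disjoint ({a} : Set α) (s : Set α) := by simpa using ha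
    have hins : ((insert a s : Finset α) : Set α) = {a} ∪ (s : Set α) := by
      rw [Finset.coe_insert, Set.insert_eq]
    have e : indicatorConstLp (μ := ν) 1 (meas_all ((insert a s : Finset α) : Set α)) hs c =
        indicatorConstLp 1 (meas_all {a}) (hfin a) c +
          indicatorConstLp 1 (meas_all (s : Set α)) hs1 c := by
      rw [← indicatorConstLp_disjoint_union (meas_all _) (meas_all _) (hfin a) hs1 hd c]
      congr 1
    have hr : ν.real ((insert a s : Finset α) : Set α) = ν.real {a} + ν.real (s : Set α) := by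
      rw [hins, measureReal_union hd (meas_all _) (hfin a) hs1]
    rw [norm_ind, hr, e, map_add]
    refine (norm_add_le _ _).trans ?_
    have h1 := h a c
    have h2 := ih hs1
    rw [norm_ind] at h1 h2
    linarith

theorem bound_set (T : Lp E 1 ν →L[ℝ] Lp E 1 ν) (C : ℝ)
    (hfin : ∀ x : α, ν {x} ≠ ⊤)
    (h : ∀ (x : α) (c : E), ‖T (indicatorConstLp 1 (meas_all {x}) (hfin x) c)‖ ≤
      C * ‖indicatorConstLp (μ := ν) 1 (meas_all {x}) (hfin x) c‖) (c : E) (s : Set α)
    (hs : ν s ≠ ⊤) : ‖T (indicatorConstLp 1 (meas_all s) hs c)‖ ≤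
      C * ‖indicatorConstLp (μ := ν) 1 (meas_all s) hs c‖ := by
  classical
  obtain ⟨en, hen⟩ := exists_injective_nat α
  let t : ℕ → Set α := fun n => {x | x ∈ s ∧ en x < n}
  have ht : ∀ n, (t n).Finite := by
    intro n
    refine Set.Finite.of_finite_image (f := en) ?_ hen.injOn
    exact (Set.finite_Iio n).subset (by rintro _ ⟨x, hx, rfl⟩; exact hx.2)
  have hts : ∀ n, t n ⊆ s := fun n x hx => hx.1
  have htop : ∀ n, ν (t n) ≠ ⊤ := fun n => ne_top_of_le_ne_top hs (measure_mono (hts n))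
  have hb : ∀ n, ‖T (indicatorConstLp 1 (meas_all (t n)) (htop n) c)‖ ≤
      C * ‖indicatorConstLp (μ := ν) 1 (meas_all (t n)) (htop n) c‖ := by
    intro n
    have := bound_finset ν T C hfin h c (ht n).toFinset
    simpa using this (by simpa using htop n)
  have hlim : Tendsto (fun n => indicatorConstLp (μ := ν) 1 (meas_all (t n)) (htop n) c) atTop
      (𝓝 (indicatorConstLp 1 (meas_all s) hs c)) := by
    refine tendsto_indicatorConstLp_set (by norm_num) ?_
    have e : ∀ n, ν (symmDiff (t n) s) = ν (s \ t n) := by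
      intro n
      congr 1
      rw [Set.symmDiff_def, Set.sdiff_eq_empty.2 (hts n), Set.empty_union]
    simp_rw [e]
    have h1 : Tendsto (fun n => ν (s \ t n)) atTop (𝓝 (ν (⋂ n, s \ t n))) := by
      refine tendsto_measure_iInter_atTop (fun n => (meas_all _).nullMeasurableSet) ?_ ?_
      · intro m n hmn x hx
        refine ⟨hx.1, fun hx2 => hx.2 ⟨hx2.1, lt_of_lt_of_le hx2.2 hmn⟩⟩
      · exact ⟨0, ne_top_of_le_ne_top hs (measure_mono Set.sdiff_subset)⟩
    have h2 : (⋂ n, s \ t n) = ∅ := by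
      ext x
      simp only [Set.mem_iInter, Set.mem_empty_iff_false, iff_false, not_forall]
      refine ⟨en x + 1, fun hx => hx.2 ⟨hx.1, Nat.lt_succ_self _⟩⟩
    rw [h2, measure_empty] at h1
    exact h1
  have hc1 : Tendsto (fun n => ‖T (indicatorConstLp (μ := ν) 1 (meas_all (t n)) (htop n) c)‖) atTop
      (𝓝 ‖T (indicatorConstLp 1 (meas_all s) hs c)‖) :=
    ((T.continuous.tendsto _).comp hlim).norm
  have hc2 : Tendsto (fun n => C * ‖indicatorConstLp (μ := ν) 1 (meas_all (t n)) (htop n) c‖) atTop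
      (𝓝 (C * ‖indicatorConstLp (μ := ν) 1 (meas_all s) hs c‖)) :=
    (hlim.norm).const_mul C
  exact le_of_tendsto_of_tendsto' hc1 hc2 hb

theorem bound_all (T : Lp E 1 ν →L[ℝ] Lp E 1 ν) (C : ℝ)
    (hfin : ∀ x : α, ν {x} ≠ ⊤)
    (h : ∀ (x : α) (c : E), ‖T (indicatorConstLp 1 (meas_all {x}) (hfin x) c)‖ ≤
      C * ‖indicatorConstLp (μ := ν) 1 (meas_all {x}) (hfin x) c‖) (f : Lp E 1 ν) :
    ‖T f‖ ≤ C * ‖f‖ := by
  refine Lp.induction (by norm_num) (motive := fun f : Lp E 1 ν => ‖T f‖ ≤ C * ‖f‖) ?_ ?_ ?_ f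
  · intro c s hs hμs
    have := bound_set ν T C hfin h c s hμs.ne
    simpa [Lp.simpleFunc.coe_indicatorConst] using this
  · intro f g hf hg hfg h1 h2
    have hnorm : ‖hf.toLp f + hg.toLp g‖ = ‖hf.toLp f‖ + ‖hg.toLp g‖ := by
      rw [← MemLp.toLp_add hf hg, Lp.norm_toLp, Lp.norm_toLp, Lp.norm_toLp,
        ← ENNReal.toReal_add hf.eLpNorm_ne_top hg.eLpNorm_ne_top]
      congr 1
      rw [eLpNorm_one_eq_lintegral_enorm, eLpNorm_one_eq_lintegral_enorm,
        eLpNorm_one_eq_lintegral_enorm, ← lintegral_add_left' hf.aestronglyMeasurable.enorm]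
      refine lintegral_congr fun x => ?_
      rw [Pi.add_apply]
      by_cases hx : f x = 0
      · simp [hx]
      · have : g x = 0 := by
          by_contra hgx
          exact Set.disjoint_left.1 hfg hx hgx
        simp [this]
    rw [map_add, hnorm]
    refine (norm_add_le _ _).trans ?_
    linarith
  · exact isClosed_le (T.continuous.norm) (continuous_const.mul continuous_norm)

theorem exists_pt (hν : ν ≠ 0) : ∃ x : α, ν {x} ≠ 0 := by
  by_contra hcon
  push Not at hcon
  apply hν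
  rw [← Measure.measure_univ_eq_zero]
  rw [← Set.biUnion_of_singleton (Set.univ : Set α)]
  exact (measure_biUnion_null_iff (Set.to_countable _)).2 (fun x _ => hcon x)

/-- every operator on `L¹` almost attains its norm on a vector supported at one point -/
theorem exists_vec (hν : ν ≠ 0) (hfin : ∀ x : α, ν {x} ≠ ⊤) (e0 : E) (he0 : e0 ≠ 0)
    (T : Lp E 1 ν →L[ℝ] Lp E 1 ν) :
    ∃ ξ : Lp E 1 ν, ξ ≠ 0 ∧ (∃ x : α, ∀ᵐ z ∂ν, z ∉ ({x} : Set α) → ξ z = 0) ∧
      1 / 2 * ‖T‖ * ‖ξ‖ ≤ ‖T ξ‖ := by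
  have hsup : ∀ (x : α) (c : E), ∀ᵐ z ∂ν, z ∉ ({x} : Set α) →
      (indicatorConstLp (μ := ν) 1 (meas_all {x}) (hfin x) c : α → E) z = 0 := by
    intro x c
    filter_upwards [indicatorConstLp_coeFn (μ := ν) (p := 1) (hs := meas_all {x}) (hμs := hfin x)
      (c := c)] with z hz hzx
    rw [hz, Set.indicator_of_notMem hzx]
  by_contra hcon
  push Not at hcon
  have hb := bound_all ν T (1 / 2 * ‖T‖) hfin (by
    intro x c
    by_cases h0 : indicatorConstLp (μ := ν) 1 (meas_all {x}) (hfin x) c = 0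
    · rw [h0]; simp
    · exact (hcon _ h0 ⟨x, hsup x c⟩).le)
  have hT : ‖T‖ ≤ 1 / 2 * ‖T‖ :=
    ContinuousLinearMap.opNorm_le_bound _ (by positivity) hb
  have hT0 : ‖T‖ = 0 := le_antisymm (by linarith) (norm_nonneg _)
  obtain ⟨x, hx⟩ := exists_pt ν hν
  have hne : indicatorConstLp (μ := ν) 1 (meas_all {x}) (hfin x) e0 ≠ 0 := by
    rw [← norm_ne_zero_iff, norm_ind]
    have h1 : 0 < ‖e0‖ := norm_pos_iff.2 he0
    have h2 : 0 < ν.real {x} := ENNReal.toReal_pos hx (hfin x)
    positivity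
  have := hcon _ hne ⟨x, hsup x e0⟩
  rw [hT0] at this
  have h3 := norm_nonneg (T (indicatorConstLp (μ := ν) 1 (meas_all {x}) (hfin x) e0))
  linarith

end

end Run7.h635.NA
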